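import Pool.Agent.Helper28.EP.ADefs

/-!
# MP_36e183_co, block A5: the elements `f (1^i)` commute
-/

set_option autoImplicit false

namespace Pool.Agent.EP

namespace A5

open Finset

variable {K : Type*} [Field K]

/-- Derivations of the free algebra. -/
def IsDer (δ : FA K →ₗ[K] FA K) : Prop := ∀ x y, δ (x * y) = δ x * y + x * δ y

theorem isDer_comm {δ δ' : FA K →ₗ[K] FA K} (h : IsDer δ) (h' : IsDer δ') :
    IsDer (δ ∘ₗ δ' - δ' ∘ₗ δ) := by
  intro x y
  simp only [LinearMap.sub_apply, LinearMap.comp_apply]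
  rw [h', h, map_add, map_add, h, h, h', h']
  noncomm_ring

theorem derL_append (δ : ℕ → FA K) (l l' : List ℕ) :
    derL δ (l ++ l') = derL δ l * wd K l' + wd K l * derL δ l' := by
  induction l with
  | nil => simp [derL, wd_nil]
  | cons k v ih =>
    rw [List.cons_append, derL, ih, derL, ← wd_mul, show (k :: v) = [k] ++ v from rfl, ← wd_mul]
    noncomm_ring

theorem isDer_der (δ : ℕ → FA K) : IsDer (der δ) := by
  have h0 : ∀ l, der δ (wd K l) = derL δ l := fun l => lin_wd _ _
  have h1 : ∀ l, (der δ) ∘ₗ (LinearMap.mulLeft K (wd K l)) =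
      (LinearMap.mulLeft K (der δ (wd K l))) + (LinearMap.mulLeft K (wd K l)) ∘ₗ der δ := by
    intro l
    refine lin_ext fun l' => ?_
    simp only [LinearMap.comp_apply, LinearMap.add_apply, LinearMap.mulLeft_apply]
    rw [wd_mul, h0, h0, h0, derL_append]
  have h2 : ∀ y, der δ ∘ₗ LinearMap.mulRight K y =
      LinearMap.mulRight K y ∘ₗ der δ + LinearMap.mulRight K (der δ y) := by
    intro y
    refine lin_ext fun l => ?_
    have := LinearMap.congr_fun (h1 l) y
    simpa only [LinearMap.comp_apply, LinearMap.add_apply, LinearMap.mulLeft_apply,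
      LinearMap.mulRight_apply] using this
  intro x y
  have := LinearMap.congr_fun (h2 y) x
  simpa only [LinearMap.comp_apply, LinearMap.add_apply, LinearMap.mulRight_apply] using this

theorem IsDer.one {δ : FA K →ₗ[K] FA K} (h : IsDer δ) : δ 1 = 0 := by
  have := h 1 1
  rw [mul_one, one_mul, mul_one] at this
  simpa using this

theorem IsDer.pow {δ : FA K →ₗ[K] FA K} (h : IsDer δ) (a : FA K) (n : ℕ) :
    δ (a ^ n) = ∑ p ∈ range n, a ^ p * δ a * a ^ (n - 1 - p) := by
  induction n with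
  | zero => simp [h.one]
  | succ n ih =>
    rw [pow_succ, h, ih, sum_range_succ, sum_mul]
    congr 1
    · refine sum_congr rfl fun p hp => ?_
      have hp' : p < n := mem_range.1 hp
      rw [mul_assoc, ← pow_succ]
      congr 2
      omega
    · rw [show n + 1 - 1 - n = 0 by omega, pow_zero, mul_one]

/-- The commutator of two elements which act as derivations. -/
theorem rep_comm {R : Type*} [Ring R] [Algebra K R] {M : K} (hM : M ≠ 0) {D : FA K →ₗ[K] R}
    {P P' : R} {δ δ' : FA K →ₗ[K] FA K}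
    (h : ∀ x, P * D x - D x * P = M • D (δ x))
    (h' : ∀ x, P' * D x - D x * P' = M • D (δ' x)) (x : FA K) :
    (M⁻¹ • (P * P' - P' * P)) * D x - D x * (M⁻¹ • (P * P' - P' * P)) =
      M • D ((δ ∘ₗ δ' - δ' ∘ₗ δ) x) := by
  have e1 := h (δ' x)
  have e2 := h' (δ x)
  have e3 : (P * P' - P' * P) * D x - D x * (P * P' - P' * P) =
      (P * (P' * D x - D x * P') - (P' * D x - D x * P') * P) -
        (P' * (P * D x - D x * P) - (P * D x - D x * P) * P') := by noncomm_ring
  rw [smul_mul_assoc, mul_smul_comm, ← smul_sub, e3, h x, h' x, mul_smul_comm, smul_mul_assoc,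
    mul_smul_comm, smul_mul_assoc, ← smul_sub, ← smul_sub, e1, e2, ← smul_sub, ← smul_sub,
    ← map_sub, smul_smul, inv_mul_cancel₀ hM, one_smul]
  rfl

/-! ### The letters -/

theorem wd_rep (K : Type*) [Field K] (n : ℕ) : wd K (List.replicate n 1) = wd K [1] ^ n := by
  induction n with
  | zero => simp [wd_nil]
  | succ n ih => rw [List.replicate_succ', ← wd_mul, ih, pow_succ]

theorem dInf_letter (k : ℕ) : dInf K (wd K [k]) = wd K [k + 1] := by
  unfold dInf der
  rw [lin_wd]
  simp [derL, wd_nil]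

theorem dZero_letter (k : ℕ) :
    dZero K (wd K [k]) = -∑ s ∈ Finset.range k, wd K [s + 1, k - 1 - s] := by
  unfold dZero der
  rw [lin_wd]
  simp [derL, wd_nil]

theorem isDer_dInf : IsDer (dInf K) := isDer_der _

theorem isDer_dZero : IsDer (dZero K) := isDer_der _

theorem wd_two (a b : ℕ) : wd K [a, b] = wd K [a] * wd K [b] := by
  rw [wd_mul]; rfl

/-- `[∂_∞, ∂_0]`. -/
noncomputable def d1 (K : Type*) [Field K] : FA K →ₗ[K] FA K :=
  dInf K ∘ₗ dZero K - dZero K ∘ₗ dInf K

theorem isDer_d1 : IsDer (d1 K) := isDer_comm isDer_dInf isDer_dZero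

theorem dZero_zero : dZero K (wd K [0]) = 0 := by
  rw [dZero_letter]; simp

theorem dZero_one : dZero K (wd K [1]) = -(wd K [1] * wd K [0]) := by
  rw [dZero_letter]; simp [wd_two]

theorem dZero_two : dZero K (wd K [2]) =
    -(wd K [1] * wd K [1] + wd K [2] * wd K [0]) := by
  rw [dZero_letter]; simp [wd_two, sum_range_succ]

theorem dZero_three : dZero K (wd K [3]) =
    -(wd K [1] * wd K [2] + wd K [2] * wd K [1] + wd K [3] * wd K [0]) := by
  rw [dZero_letter]; simp [wd_two, sum_range_succ]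

theorem d1_zero : d1 K (wd K [0]) = wd K [1] * wd K [0] := by
  unfold d1
  rw [LinearMap.sub_apply, LinearMap.comp_apply, LinearMap.comp_apply, dZero_zero, dInf_letter,
    dZero_one, map_zero]
  simp

theorem d1_one : d1 K (wd K [1]) = 0 := by
  unfold d1
  rw [LinearMap.sub_apply, LinearMap.comp_apply, LinearMap.comp_apply, dZero_one, dInf_letter,
    dZero_two, map_neg, isDer_dInf, dInf_letter, dInf_letter]
  abel

theorem d1_two : d1 K (wd K [2]) = -(wd K [2] * wd K [1]) := by
  unfold d1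
  rw [LinearMap.sub_apply, LinearMap.comp_apply, LinearMap.comp_apply, dZero_two, dInf_letter,
    dZero_three, map_neg, map_add, isDer_dInf, isDer_dInf, dInf_letter, dInf_letter, dInf_letter]
  abel

/-- The iterated commutators `b_0 = ∂_0`, `b_{j+1} = [d1, b_j]`. -/
noncomputable def bD (K : Type*) [Field K] : ℕ → FA K →ₗ[K] FA K
  | 0 => dZero K
  | j + 1 => d1 K ∘ₗ bD K j - bD K j ∘ₗ d1 K

theorem isDer_bD (j : ℕ) : IsDer (bD K j) := by
  induction j with
  | zero => exact isDer_dZero
  | succ j ih => exact isDer_comm isDer_d1 ih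

theorem d1_one_pow (n : ℕ) : d1 K (wd K [1] ^ n) = 0 := by
  rw [isDer_d1.pow]
  refine sum_eq_zero fun p _ => ?_
  rw [d1_one, mul_zero, zero_mul]

theorem d1_one_pow_zero (n : ℕ) :
    d1 K (wd K [1] ^ n * wd K [0]) = wd K [1] ^ (n + 1) * wd K [0] := by
  rw [isDer_d1, d1_one_pow, d1_zero, zero_mul, zero_add, ← mul_assoc, ← pow_succ]

theorem bD_one (j : ℕ) : bD K j (wd K [1]) = -(wd K [1] ^ (j + 1) * wd K [0]) := by
  induction j with
  | zero => rw [bD, dZero_one, zero_add, pow_one]
  | succ j ih =>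
    rw [bD, LinearMap.sub_apply, LinearMap.comp_apply, LinearMap.comp_apply, ih, d1_one, map_zero,
      map_neg, d1_one_pow_zero, sub_zero]

theorem bD_two (j : ℕ) : bD K j (wd K [2]) = -(wd K [1] ^ (j + 2) +
    ∑ i ∈ range (j + 1), wd K [2] * wd K [1] ^ i * wd K [0] * wd K [1] ^ (j - i)) := by
  induction j with
  | zero =>
    rw [bD, dZero_two]
    simp [pow_two]
  | succ j ih =>
    have h1 : d1 K (bD K j (wd K [2])) = 0 := by
      rw [ih, map_neg, map_add, d1_one_pow, zero_add, map_sum, neg_eq_zero]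
      refine sum_eq_zero fun i _ => ?_
      rw [isDer_d1, d1_one_pow, mul_zero, add_zero, mul_assoc, isDer_d1, d1_one_pow_zero, d1_two,
        pow_succ']
      noncomm_ring
    rw [bD, LinearMap.sub_apply, LinearMap.comp_apply, LinearMap.comp_apply, h1, d1_two, map_neg,
      isDer_bD j, ih, bD_one, zero_sub, neg_neg, sum_range_succ _ (j + 1), Nat.sub_self, pow_zero,
      mul_one, neg_mul, add_mul, sum_mul, ← pow_succ]
    have h2 : ∀ i ∈ range (j + 1), wd K [2] * wd K [1] ^ i * wd K [0] * wd K [1] ^ (j - i) *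
        wd K [1] = wd K [2] * wd K [1] ^ i * wd K [0] * wd K [1] ^ (j + 1 - i) := by
      intro i hi
      have hi' : i < j + 1 := mem_range.1 hi
      rw [mul_assoc, ← pow_succ, show j - i + 1 = j + 1 - i by omega]
    rw [sum_congr rfl h2]
    noncomm_ring

/-- The derivation of the operator `Q_d`, `d = n + 1`. -/
noncomputable def cD (K : Type*) [Field K] (n : ℕ) : FA K →ₗ[K] FA K :=
  dInf K ∘ₗ bD K n - bD K n ∘ₗ dInf K

theorem isDer_cD (n : ℕ) : IsDer (cD K n) := isDer_comm isDer_dInf (isDer_bD n)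

theorem dInf_pow_zero (n : ℕ) : dInf K (wd K [1] ^ n * wd K [0]) =
    ∑ p ∈ range n, wd K [1] ^ p * wd K [2] * wd K [1] ^ (n - 1 - p) * wd K [0] +
      wd K [1] ^ (n + 1) := by
  rw [isDer_dInf, isDer_dInf.pow, dInf_letter, dInf_letter, sum_mul, pow_succ]

theorem cD_one (n : ℕ) : cD K n (wd K [1]) =
    ∑ i ∈ range (n + 1), (wd K [2] * wd K [1] ^ i * wd K [0] * wd K [1] ^ (n - i) -
      wd K [1] ^ (n - i) * wd K [2] * wd K [1] ^ i * wd K [0]) := by
  unfold cD
  rw [LinearMap.sub_apply, LinearMap.comp_apply, LinearMap.comp_apply, dInf_letter, bD_one,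
    bD_two, map_neg, dInf_pow_zero, sum_sub_distrib]
  have h : ∑ p ∈ range (n + 1), wd K [1] ^ p * wd K [2] * wd K [1] ^ (n + 1 - 1 - p) * wd K [0] =
      ∑ i ∈ range (n + 1), wd K [1] ^ (n - i) * wd K [2] * wd K [1] ^ i * wd K [0] := by
    rw [← sum_range_reflect]
    refine sum_congr rfl fun i hi => ?_
    have hi' : i < n + 1 := mem_range.1 hi
    rw [show n + 1 - 1 - i = n - i by omega, show n + 1 - 1 - (n - i) = i by omega]
  rw [h]
  abel

/-! ### The elements `E_n` and `Y` -/

section Ring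

variable {R : Type*} [Ring R] [Algebra K R]

/-- `E_n = f (1^n)`. -/
def E (f : List ℕ → R) (n : ℕ) : R := f (List.replicate n 1)

/-- `f (1^p 2 1^j 0 1^r)`. -/
def Y (f : List ℕ → R) (p j r : ℕ) : R :=
  f (List.replicate p 1 ++ 2 :: (List.replicate j 1 ++ 0 :: List.replicate r 1))

theorem lin_pow (f : List ℕ → R) (n : ℕ) : lin f (wd K [1] ^ n) = E f n := by
  rw [← wd_rep, lin_wd]; rfl

theorem lin_Y (f : List ℕ → R) (p j r : ℕ) :
    lin f (wd K [1] ^ p * wd K [2] * wd K [1] ^ j * wd K [0] * wd K [1] ^ r) = Y f p j r := by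
  rw [← wd_rep, ← wd_rep, ← wd_rep, wd_mul, wd_mul, wd_mul, wd_mul, lin_wd]
  unfold Y
  congr 1
  simp

theorem Y_zero {θ : K} (hθ : θ ≠ 0) {f : List ℕ → R} (hf : Cut θ f) (p r : ℕ) :
    Y f p 0 r = θ⁻¹ • (E f (p + r + 2) - E f (p + 1) * E f (r + 1)) := by
  have h := hf (List.replicate p 1) (List.replicate r 1) 1 0
  have h1 : List.replicate p 1 ++ [1] = List.replicate (p + 1) 1 := List.replicate_succ'.symm
  have h2 : List.replicate p 1 ++ 1 :: (0 + 1) :: List.replicate r 1 =
      List.replicate (p + r + 2) 1 := by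
    rw [show p + r + 2 = p + (r + 2) by ring, List.replicate_add]
    rfl
  rw [h1, h2] at h
  have h3 : E f (p + 1) * E f (r + 1) = E f (p + r + 2) - θ • Y f p 0 r := h
  rw [h3, sub_sub_cancel, smul_smul, inv_mul_cancel₀ hθ, one_smul]

theorem Y_succ {θ : K} (hθ : θ ≠ 0) {f : List ℕ → R} (hf : Cut θ f) (p j r : ℕ) :
    Y f p (j + 1) r = θ⁻¹ • (Y f (p + 1) j r - E f (p + 1) * Y f 0 j r) := by
  have h := hf (List.replicate p 1) (List.replicate j 1 ++ 0 :: List.replicate r 1) 1 1
  have h1 : List.replicate p 1 ++ [1] = List.replicate (p + 1) 1 := List.replicate_succ'.symm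
  have h2 : List.replicate p 1 ++ 1 :: (1 + 1) ::
      (List.replicate j 1 ++ 0 :: List.replicate r 1) =
      List.replicate (p + 1) 1 ++ 2 :: (List.replicate j 1 ++ 0 :: List.replicate r 1) := by
    rw [List.replicate_succ']
    simp
  rw [h1, h2] at h
  have h3 : E f (p + 1) * Y f 0 j r = Y f (p + 1) j r - θ • Y f p (j + 1) r := h
  rw [h3, sub_sub_cancel, smul_smul, inv_mul_cancel₀ hθ, one_smul]

theorem Y_succ' {θ : K} (hθ : θ ≠ 0) {f : List ℕ → R} (hf : Cut θ f) (p j r : ℕ) :
    Y f p (j + 1) r = θ⁻¹ • (Y f p j (r + 1) - Y f p j 0 * E f (r + 1)) := by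
  have h := hf (List.replicate p 1 ++ 2 :: List.replicate j 1) (List.replicate r 1) 0 0
  have h1 : List.replicate p 1 ++ 2 :: List.replicate j 1 ++ [0] =
      List.replicate p 1 ++ 2 :: (List.replicate j 1 ++ 0 :: List.replicate 0 1) := by
    simp
  have h2 : List.replicate p 1 ++ 2 :: List.replicate j 1 ++ 0 :: (0 + 1) ::
      List.replicate r 1 =
      List.replicate p 1 ++ 2 :: (List.replicate j 1 ++ 0 :: List.replicate (r + 1) 1) := by
    simp [List.replicate_succ]
  have h4 : List.replicate p 1 ++ 2 :: List.replicate j 1 ++ (0 + 1) :: 0 ::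
      List.replicate r 1 =
      List.replicate p 1 ++ 2 :: (List.replicate (j + 1) 1 ++ 0 :: List.replicate r 1) := by
    rw [List.replicate_succ' (n := j)]
    simp
  rw [h1, h2, h4] at h
  have h3 : Y f p j 0 * E f (r + 1) = Y f p j (r + 1) - θ • Y f p (j + 1) r := h
  rw [h3, sub_sub_cancel, smul_smul, inv_mul_cancel₀ hθ, one_smul]

theorem commute_Y {θ : K} (hθ : θ ≠ 0) {f : List ℕ → R} (hf : Cut θ f) (X : R) (j : ℕ) :
    ∀ p r, (∀ a, 1 ≤ a → a ≤ p + j + r + 2 → Commute X (E f a)) → Commute X (Y f p j r) := by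
  induction j with
  | zero =>
    intro p r h
    rw [Y_zero hθ hf]
    exact ((h _ (by omega) (by omega)).sub_right
      ((h _ (by omega) (by omega)).mul_right (h _ (by omega) (by omega)))).smul_right _
  | succ j ih =>
    intro p r h
    rw [Y_succ hθ hf]
    exact ((ih _ _ fun a h1 h2 => h a h1 (by omega)).sub_right
      ((h _ (by omega) (by omega)).mul_right (ih _ _ fun a h1 h2 => h a h1 (by omega)))).smul_right _

theorem lead {θ : K} (hθ : θ ≠ 0) {f : List ℕ → R} (hf : Cut θ f) (X : R) (j : ℕ) :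
    ∀ p r, (∀ a, 1 ≤ a → a < p + j + r + 2 → Commute X (E f a)) →
      Y f p j r * X - X * Y f p j r =
        θ⁻¹ ^ (j + 1) • (E f (p + j + r + 2) * X - X * E f (p + j + r + 2)) := by
  induction j with
  | zero =>
    intro p r h
    have h1 : Commute X (E f (p + 1) * E f (r + 1)) :=
      (h _ (by omega) (by omega)).mul_right (h _ (by omega) (by omega))
    rw [Y_zero hθ hf, zero_add, pow_one, add_zero, smul_mul_assoc, mul_smul_comm, ← smul_sub,
      sub_mul, mul_sub, h1.eq]
    congr 1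
    abel
  | succ j ih =>
    intro p r h
    have h1 : Commute X (E f (p + 1) * Y f 0 j r) :=
      (h _ (by omega) (by omega)).mul_right
        (commute_Y hθ hf X j _ _ fun a h1 h2 => h a h1 (by omega))
    have h2 := ih (p + 1) r fun a h1 h2 => h a h1 (by omega)
    rw [Y_succ hθ hf, smul_mul_assoc, mul_smul_comm, ← smul_sub, sub_mul, mul_sub, h1.eq,
      pow_succ', mul_smul, show p + (j + 1) + r + 2 = p + 1 + j + r + 2 by ring, ← h2]
    congr 1
    abel

theorem rev {θ : K} (hθ : θ ≠ 0) {f : List ℕ → R} (hf : Cut θ f) (j : ℕ) :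
    ∀ p r, (∀ a b, 1 ≤ a → 1 ≤ b → a + b < p + j + r + 2 → Commute (E f a) (E f b)) →
      (∀ u, 1 ≤ u → u ≤ p + j + 1 → Commute (E f u) (E f (p + j + r + 2 - u))) →
      Y f p j r = Y f r j p := by
  induction j with
  | zero =>
    intro p r _ H2
    have h := H2 (p + 1) (by omega) (by omega)
    rw [show p + 0 + r + 2 - (p + 1) = r + 1 by omega] at h
    rw [Y_zero hθ hf, Y_zero hθ hf, h.eq, show r + p + 2 = p + r + 2 by ring]
  | succ j ih =>
    intro p r H1 H2
    have e1 : Y f p j (r + 1) = Y f (r + 1) j p := by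
      refine ih _ _ (fun a b h1 h2 h3 => H1 a b h1 h2 (by omega)) fun u h1 h2 => ?_
      have := H2 u h1 (by omega)
      rwa [show p + (j + 1) + r + 2 - u = p + j + (r + 1) + 2 - u by omega] at this
    have e2 : Y f p j 0 = Y f 0 j p := by
      refine ih _ _ (fun a b h1 h2 h3 => H1 a b h1 h2 (by omega)) fun u h1 h2 => ?_
      exact H1 _ _ h1 (by omega) (by omega)
    have e3 : Commute (E f (r + 1)) (Y f 0 j p) := by
      refine commute_Y hθ hf _ j _ _ fun a h1 h2 => ?_
      rcases Nat.lt_or_ge a (p + j + 2) with h3 | h3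
      · exact H1 _ _ (by omega) h1 (by omega)
      · have h4 : a = p + j + 2 := by omega
        subst h4
        have := H2 (p + j + 2) (by omega) (by omega)
        rw [show p + (j + 1) + r + 2 - (p + j + 2) = r + 1 by omega] at this
        exact this.symm
    rw [Y_succ' hθ hf p j r, Y_succ hθ hf r j p, e1, e2, e3.eq]

/-- The windows. -/
theorem windows {θ : K} (hθ : θ ≠ 0) {f : List ℕ → R} (hf : Cut θ f) (n s : ℕ)
    (H1 : ∀ a b, 1 ≤ a → 1 ≤ b → a + b < n + 1 + s → Commute (E f a) (E f b))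
    (H2 : ∀ u, 1 ≤ u → u ≤ n → Commute (E f u) (E f (n + 1 + s - u))) :
    lin f (cD K n (wd K [1] ^ s)) = 0 := by
  have h0 : ∀ p i, p < s → i ≤ n →
      lin f (wd K [1] ^ p * (wd K [2] * wd K [1] ^ i * wd K [0] * wd K [1] ^ (n - i) -
      wd K [1] ^ (n - i) * wd K [2] * wd K [1] ^ i * wd K [0]) * wd K [1] ^ (s - 1 - p)) =
      Y f p i (n - i + s - 1 - p) - Y f (n - i + p) i (n - i + s - 1 - (n - i + p)) := by
    intro p i hp hi
    rw [← lin_Y (K := K), ← lin_Y (K := K), ← map_sub]
    congr 1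
    rw [show n - i + s - 1 - p = (n - i) + (s - 1 - p) by omega,
      show n - i + s - 1 - (n - i + p) = s - 1 - p by omega, pow_add, show n - i + p = p + (n - i) by omega,
      pow_add (wd K [1]) p]
    noncomm_ring
  rw [(isDer_cD n).pow, cD_one, map_sum]
  have h1 : ∀ p ∈ range s, lin f (wd K [1] ^ p * (∑ i ∈ range (n + 1),
      (wd K [2] * wd K [1] ^ i * wd K [0] * wd K [1] ^ (n - i) -
      wd K [1] ^ (n - i) * wd K [2] * wd K [1] ^ i * wd K [0])) * wd K [1] ^ (s - 1 - p)) =
      ∑ i ∈ range (n + 1), (Y f p i (n - i + s - 1 - p) -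
        Y f (n - i + p) i (n - i + s - 1 - (n - i + p))) := by
    intro p hp
    rw [mul_sum, sum_mul, map_sum]
    exact sum_congr rfl fun i hi => h0 p i (mem_range.1 hp) (by have := mem_range.1 hi; omega)
  rw [sum_congr rfl h1, sum_comm]
  refine sum_eq_zero fun i hi => ?_
  have hi' : i < n + 1 := mem_range.1 hi
  obtain ⟨w, hw⟩ : ∃ w, w = n - i := ⟨_, rfl⟩
  rw [← hw, sum_sub_distrib]
  have h2 : ∑ p ∈ range s, Y f p i (w + s - 1 - p) +
      ∑ p ∈ range w, Y f (s + p) i (w + s - 1 - (s + p)) =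
      ∑ p ∈ range w, Y f p i (w + s - 1 - p) +
        ∑ p ∈ range s, Y f (w + p) i (w + s - 1 - (w + p)) := by
    rw [← sum_range_add (fun p => Y f p i (w + s - 1 - p)),
      ← sum_range_add (fun p => Y f p i (w + s - 1 - p)), add_comm s w]
  have h3 : ∑ p ∈ range w, Y f (s + p) i (w + s - 1 - (s + p)) =
      ∑ p ∈ range w, Y f p i (w + s - 1 - p) := by
    rw [← sum_range_reflect]
    refine sum_congr rfl fun p hp => ?_
    have hp' : p < w := mem_range.1 hp
    rw [show s + (w - 1 - p) = w + s - 1 - p by omega, show w + s - 1 - (w + s - 1 - p) = p by omega]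
    symm
    refine rev hθ hf i _ _ (fun a b h1 h2 h3 => H1 a b h1 h2 (by omega)) fun u h1 h2 => ?_
    have := H2 u h1 (by omega)
    rwa [show n + 1 + s - u = p + i + (w + s - 1 - p) + 2 - u by omega] at this
  rw [h3, add_comm] at h2
  rw [add_left_cancel h2, sub_self]

end Ring

end A5

open A5 in
theorem comm_thm {K : Type*} [Field K] {R : Type*} [Ring R] [Algebra K R] (θ M : K) (hθ : θ ≠ 0)
    (hM : M ≠ 0)
    (hd : ∀ d : ℕ, 1 ≤ d → ∑ i ∈ Finset.range d, (θ⁻¹) ^ i ≠ 0) (f : List ℕ → R) (hf : Cut θ f)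
    (A C : R)
    (hA : ∀ x, A * lin f x - lin f x * A = M • lin f (dInf K x))
    (hC : ∀ x, C * lin f x - lin f x * C = M • lin f (dZero K x))
    (hC0 : C = f [0]) (i j : ℕ) (hi : 1 ≤ i) (hj : 1 ≤ j) :
    f (List.replicate i 1) * f (List.replicate j 1) =
      f (List.replicate j 1) * f (List.replicate i 1) := by
  -- the elements `T` and `P_j`
  set T : R := M⁻¹ • (A * C - C * A) with hT
  have hTD : ∀ x, T * lin f x - lin f x * T = M • lin f (d1 K x) := rep_comm hM hA hC
  set P : ℕ → R := fun n => lin f (wd K [1] ^ n * wd K [0]) with hP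
  have hP0 : P 0 = C := by rw [hP, hC0]; simp
  have hPs : ∀ n, P (n + 1) = M⁻¹ • (T * P n - P n * T) := by
    intro n
    rw [hP, hTD, d1_one_pow_zero, smul_smul, inv_mul_cancel₀ hM, one_smul]
  have hPD : ∀ n x, P n * lin f x - lin f x * P n = M • lin f (bD K n x) := by
    intro n
    induction n with
    | zero => rw [hP0]; exact hC
    | succ n ih => rw [hPs]; exact rep_comm hM hTD ih
  -- the elements `Q_{n+1}`
  set Qd : ℕ → R := fun n => lin f (dInf K (wd K [1] ^ n * wd K [0])) with hQ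
  have hQs : ∀ n, Qd n = M⁻¹ • (A * P n - P n * A) := by
    intro n
    rw [hP, hA, smul_smul, inv_mul_cancel₀ hM, one_smul]
  have hQD : ∀ n x, Qd n * lin f x - lin f x * Qd n = M • lin f (cD K n x) := by
    intro n
    rw [hQs]
    exact rep_comm hM hA (hPD n)
  have hQE : ∀ n, Qd n = ∑ p ∈ Finset.range n, Y f p (n - 1 - p) 0 + E f (n + 1) := by
    intro n
    rw [hQ]
    simp only
    rw [dInf_pow_zero, map_add, lin_pow, map_sum]
    congr 1
    refine Finset.sum_congr rfl fun p _ => ?_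
    rw [← lin_Y (K := K), pow_zero, mul_one]
  -- the induction
  have key : ∀ N, ∀ n s, n + 1 + (s + 1) = N → Commute (E f (n + 1)) (E f (s + 1)) := by
    intro N
    induction N using Nat.strong_induction_on with
    | _ N ihN =>
      intro n
      induction n using Nat.strong_induction_on with
      | _ n ihn =>
        intro s hs
        have H1 : ∀ a b, 1 ≤ a → 1 ≤ b → a + b < n + 1 + (s + 1) → Commute (E f a) (E f b) := by
          intro a b ha hb hab
          obtain ⟨a, rfl⟩ : ∃ c, a = c + 1 := ⟨a - 1, by omega⟩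
          obtain ⟨b, rfl⟩ : ∃ c, b = c + 1 := ⟨b - 1, by omega⟩
          exact ihN _ (by omega) a b rfl
        have H2 : ∀ u, 1 ≤ u → u ≤ n → Commute (E f u) (E f (n + 1 + (s + 1) - u)) := by
          intro u h1 h2
          obtain ⟨u, rfl⟩ : ∃ c, u = c + 1 := ⟨u - 1, by omega⟩
          have := ihn u (by omega) (n + s - u) (by omega)
          rwa [show n + s - u + 1 = n + 1 + (s + 1) - (u + 1) by omega] at this
        have h3 := hQD n (wd K [1] ^ (s + 1))
        rw [windows hθ hf n (s + 1) H1 H2, smul_zero, lin_pow, hQE, add_mul, mul_add,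
          Finset.sum_mul, Finset.mul_sum] at h3
        have h4 : ∀ p ∈ Finset.range n, Y f p (n - 1 - p) 0 * E f (s + 1) -
            E f (s + 1) * Y f p (n - 1 - p) 0 =
            θ⁻¹ ^ (n - p) • (E f (n + 1) * E f (s + 1) - E f (s + 1) * E f (n + 1)) := by
          intro p hp
          have hp' : p < n := Finset.mem_range.1 hp
          have := lead hθ hf (E f (s + 1)) (n - 1 - p) p 0
            fun a h1 h2 => (H1 a (s + 1) h1 (by omega) (by omega)).symm
          rwa [show n - 1 - p + 1 = n - p by omega, show p + (n - 1 - p) + 0 + 2 = n + 1 by omega]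
            at this
        have h5 : ∑ p ∈ Finset.range n, Y f p (n - 1 - p) 0 * E f (s + 1) -
            ∑ p ∈ Finset.range n, E f (s + 1) * Y f p (n - 1 - p) 0 =
            (∑ p ∈ Finset.range n, θ⁻¹ ^ (n - p)) •
              (E f (n + 1) * E f (s + 1) - E f (s + 1) * E f (n + 1)) := by
          rw [← Finset.sum_sub_distrib, Finset.sum_congr rfl h4, Finset.sum_smul]
        have h6 : (∑ p ∈ Finset.range (n + 1), θ⁻¹ ^ p) •
            (E f (n + 1) * E f (s + 1) - E f (s + 1) * E f (n + 1)) = 0 := by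
          rw [Finset.sum_range_succ', pow_zero, add_smul, one_smul, ← h3,
            ← Finset.sum_range_reflect]
          have h7 : ∑ p ∈ Finset.range n, θ⁻¹ ^ (n - 1 - p + 1) =
              ∑ p ∈ Finset.range n, θ⁻¹ ^ (n - p) := by
            refine Finset.sum_congr rfl fun p hp => ?_
            have hp' : p < n := Finset.mem_range.1 hp
            rw [show n - 1 - p + 1 = n - p by omega]
          rw [h7, ← h5]
          abel
        rcases smul_eq_zero.1 h6 with h8 | h8
        · exact absurd h8 (hd _ (by omega))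
        · exact sub_eq_zero.1 h8
  obtain ⟨i, rfl⟩ : ∃ c, i = c + 1 := ⟨i - 1, by omega⟩
  obtain ⟨j, rfl⟩ : ∃ c, j = c + 1 := ⟨j - 1, by omega⟩
  exact key _ i j rfl

end Pool.Agent.EP
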